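import Pool.Agent.L7h19.FT.Stm
import Pool.Agent.L7h56.IK.Exp5

/-!
# Project FT (helper19; MP_157626_nt): the expansion `S_EXF`
-/

set_option autoImplicit false
set_option linter.all false

namespace Pool.Agent.L7h60.FT

open Finset Polynomial Pool.Agent.W262.RK Pool.Agent.W108.RK Pool.Agent.W762.RK2 Pool.Agent.L7h19.RP
  Pool.Agent.L7h19.IK Pool.Agent.L7h65.IS Pool.Agent.L7h65.IT Pool.Agent.L7h56.IK
  Pool.Agent.L7h19.FT
open Pool.Agent.L7h19.RP.AT (gm)
open Pool.Agent.L7h19.RH (Q0)

variable {J : Type} [Fintype J] [DecidableEq J] {z y r : ℕ}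

/-- the class is `c` -/
def kc (cls : J → Fin 3) (c : Fin 3) (o : Option J) : Bool := tm (fun j => decide (cls j = c)) o

/-- there is a class and it is not `c` -/
def oc (cls : J → Fin 3) (c : Fin 3) (o : Option J) : Bool := tm (fun j => decide (cls j ≠ c)) o

lemma mc_Dl (cls : J → Fin 3) (c : Fin 3) (ξ : Pr z y → Option J) :
    mc cls (Dl ξ) c = nb fun p => kc cls c (ξ p) := by
  have h := pP_Dl (fun j => decide (cls j = c)) ξ
  rw [← show Pool.Agent.L7h19.IT.pP (fun j => decide (cls j = c)) (Dl ξ) = mc cls (Dl ξ) c from ?_]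
  · exact h
  · unfold Pool.Agent.L7h19.IT.pP mc
    refine Finset.prod_congr ?_ fun _ _ => rfl
    ext j
    simp

lemma Mo_Dl (cls : J → Fin 3) (c : Fin 3) (ξ : Pr z y → Option J) :
    Mo (mc cls (Dl ξ)) c = nb fun p => oc cls c (ξ p) := by
  have h := pP_Dl (fun j => decide (cls j ≠ c)) ξ
  rw [← show Pool.Agent.L7h19.IT.pP (fun j => decide (cls j ≠ c)) (Dl ξ) =
    Mo (mc cls (Dl ξ)) c from ?_]
  · exact h
  · unfold Pool.Agent.L7h19.IT.pP Mo mc
    have e1 : (univ.filter fun j : J => decide (cls j ≠ c) = true) =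
        univ.filter fun j : J => cls j ∈ univ.filter (fun e : Fin 3 => e ≠ c) := by
      ext j
      simp
    rw [e1]
    exact (Finset.prod_fiberwise_eq_prod_filter univ (univ.filter (fun e : Fin 3 => e ≠ c)) cls
      (Dl ξ)).symm

lemma Ms_Dl (cls : J → Fin 3) (c : Fin 3) (ξ : Pr z y → Option J) (η : Pr z y → Bool) :
    Ms (mc cls (Dl ξ)) (Ts η) c = nb fun p => kc cls c (ξ p) && !(η p) := by
  unfold Ms
  rw [mc_Dl, Finset.prod_filter]
  have h1 : ∏ p ∈ (nb fun p : Pr z y => kc cls c (ξ p)).primeFactors, (if p ∉ Ts η then p else 1) =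
      ∏ p : Pr z y, if kc cls c (ξ p) = true then (if (p : ℕ) ∉ Ts η then (p : ℕ) else 1) else 1 := by
    rw [nb_pf]
    unfold Ts
    rw [Finset.prod_map, Finset.prod_filter]
    rfl
  rw [h1]
  unfold nb
  refine Finset.prod_congr rfl fun p _ => ?_
  beta_reduce
  generalize kc cls c (ξ p) = κ
  have h3 : ((p : ℕ) ∉ Ts η) ↔ ¬ η p = true := not_congr (mem_Ts η p)
  cases κ with
  | false => simp
  | true =>
    simp only [if_true, Bool.true_and, h3]
    cases η p <;> simp

lemma Q0_Dl (ξ : Pr z y → Option J) :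
    Q0 (Dl ξ) = (nb fun p => (ξ p).isSome).primeFactors := by
  unfold Q0
  rw [prod_Dl]

lemma WE_Dl (A B : J → ℕ → ℝ) (ξ : Pr z y → Option J) (η : Pr z y → Bool) :
    WE A B (Dl ξ) (Ts η) =
      ∏ p : Pr z y, (ξ p).elim 1 fun j => if η p = true then B j p else A j p := by
  have h := Pool.Agent.L7h19.RP.prod_gm (fun j (p : ℕ) => if p ∈ Ts η then B j p else A j p) ξ
  unfold WE
  refine Eq.trans ?_ (h.trans ?_)
  · rfl
  · refine Finset.prod_congr rfl fun p _ => ?_
    cases ξ p with
    | none => rfl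
    | some j =>
      simp only [Option.elim, mem_Ts]

/-- the symbol, `1` on the diagonal -/
noncomputable def SS (q p : Pr z y) : ℝ := if q = p then 1 else Jr ((q : ℕ) : ℤ) p

lemma SS_sq (q p : Pr z y) : SS q p * SS q p = 1 := by
  unfold SS
  by_cases h : q = p
  · simp [h]
  · rw [if_neg h]
    exact Pool.Agent.L7h65.IT.Jr_sq h

/-- the product of the symbols -/
noncomputable def OF (μ : Pr z y → Mk r) : ℝ :=
  ∏ p : Pr z y, ∏ q : Pr z y, if (μ q).1 ⬝ᵥ (μ p).2 ≠ 0 then SS q p else 1

lemma prod_S (v x : Pr z y → Ve r) (hvx : ∀ p, v p ≠ 0 → x p ≠ 0 → False) :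
    ∏ i, ∏ p ∈ (nb fun p => decide (v p i ≠ 0)).primeFactors,
      ∏ q ∈ (nb fun p => decide (x p i ≠ 0)).primeFactors, ((jacobiSym (p : ℤ) q : ℤ) : ℝ) =
      OF fun p => (v p, x p) := by
  have h1 : ∀ i, ∏ p ∈ (nb fun p => decide (v p i ≠ 0)).primeFactors,
      ∏ q ∈ (nb fun p => decide (x p i ≠ 0)).primeFactors, ((jacobiSym (p : ℤ) q : ℤ) : ℝ) =
      ∏ p : Pr z y, ∏ q : Pr z y, (if x p i ≠ 0 then (if v q i ≠ 0 then SS q p else 1) else 1) := by
    intro i
    rw [prod_pf (fun p : Pr z y => decide (v p i ≠ 0)) fun p =>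
      ∏ q ∈ (nb fun p => decide (x p i ≠ 0)).primeFactors, ((jacobiSym (p : ℤ) q : ℤ) : ℝ),
      Finset.prod_comm]
    refine Finset.prod_congr rfl fun q _ => ?_
    rw [prod_pf (fun p : Pr z y => decide (x p i ≠ 0)) fun p => ((jacobiSym ((q : ℕ) : ℤ) p : ℤ) : ℝ)]
    by_cases h : v q i = 0
    · simp [h]
    · simp only [h, ne_eq, not_false_eq_true, decide_true, if_true, decide_eq_true_eq]
      refine Finset.prod_congr rfl fun p _ => ?_
      by_cases h2 : x p i = 0
      · simp [h2]
      · have hne : q ≠ p := by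
          intro he
          subst he
          refine hvx q ?_ ?_
          · intro h3
            rw [h3] at h
            exact h rfl
          · intro h3
            rw [h3] at h2
            exact h2 rfl
        simp only [h2, not_false_eq_true, if_true]
        unfold SS
        rw [if_neg hne]
        rfl
  rw [Finset.prod_congr rfl fun i _ => h1 i, Finset.prod_comm]
  unfold OF
  refine Finset.prod_congr rfl fun p _ => ?_
  rw [Finset.prod_comm]
  refine Finset.prod_congr rfl fun q _ => ?_
  exact chi _ (SS_sq q p) (v q) (x p)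

/-- the marks span -/
def Spf (τ : Bool) (μ : Pr z y → Mk r) : Prop := ∀ w : Ve r, w ≠ 0 →
  ∃ p, w ⬝ᵥ (if τ = true then (μ p).1 else (μ p).2) ≠ 0

instance (τ : Bool) (μ : Pr z y → Mk r) : Decidable (Spf τ μ) := by
  unfold Spf
  infer_instance

lemma FK_eq (τ : Bool) (a b : ℕ) (m : Fin 3 → ℕ) (E : Finset ℕ) (c : Fin 3) (α β : Pr z y → Bool)
    (hαβ : ∀ p, α p = true → β p = true → False) (h1 : Ms m E c = nb α) (h2 : Mo m c = nb β) :
    FK τ a b r m E c = ((∏ p : Pr z y, if α p = true then (1 / 2 ^ a : ℝ) else 1) *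
      (∏ p : Pr z y, if β p = true then (1 / 2 ^ b : ℝ) else 1)) *
      ∑ μ : Pr z y → Mk r, if (∀ p, Pool.Agent.L7h56.IK.Cd (α p) (β p) (μ p)) ∧ Spf τ μ then
        OF μ else 0 := by
  have h3 : ∀ (g : Pr z y → Bool) (n : ℕ), ((2:ℝ) ^ (n * (nb g).primeFactors.card))⁻¹ =
      ∏ p : Pr z y, if g p = true then (1 / 2 ^ n : ℝ) else 1 := by
    intro g n
    rw [← prod_pf g fun _ => (1 / 2 ^ n : ℝ), Finset.prod_const, pow_mul, ← inv_pow]
    norm_num
  unfold FK
  rw [h1, h2, div_eq_mul_inv, mul_inv, h3 α a, h3 β b, mul_comm]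
  congr 1
  rw [sum_dvr α]
  have h4 : ∀ v : Pr z y → Ve r, (if ∀ p, v p ≠ 0 → α p = true then
      (∑ e ∈ Fintype.piFinset (fun _ : Fin r => (nb β).divisors),
        if (if τ = true then Idp r (nb α) (fun i => nb fun p => decide (v p i ≠ 0)) else
          Idp r (nb β) e) then
        ∏ i, ∏ p ∈ (nb fun p => decide (v p i ≠ 0)).primeFactors, ∏ q ∈ (e i).primeFactors,
          ((jacobiSym (p : ℤ) q : ℤ) : ℝ) else 0) else 0) =
      ∑ x : Pr z y → Ve r, if (∀ p, Pool.Agent.L7h56.IK.Cd (α p) (β p) (v p, x p)) ∧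
        Spf τ (fun p => (v p, x p)) then OF (fun p => (v p, x p)) else 0 := by
    intro v
    by_cases hv : ∀ p, v p ≠ 0 → α p = true
    · rw [if_pos hv, sum_dvr β]
      refine Finset.sum_congr rfl fun x _ => ?_
      by_cases hx : ∀ p, x p ≠ 0 → β p = true
      · rw [if_pos hx, prod_S v x fun p hp1 hp2 => hαβ p (hv p hp1) (hx p hp2)]
        refine if_congr ?_ rfl rfl
        have e1 := Idp_iff α v hv
        have e2 := Idp_iff β x hx
        unfold Spf
        cases τ with
        | true =>
          simp only [if_true]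
          rw [e1]
          exact ⟨fun h => ⟨fun p => ⟨hv p, hx p⟩, h⟩, fun h => h.2⟩
        | false =>
          simp only [Bool.false_eq_true, if_false]
          rw [e2]
          exact ⟨fun h => ⟨fun p => ⟨hv p, hx p⟩, h⟩, fun h => h.2⟩
      · rw [if_neg hx, if_neg fun h => hx fun p => (h.1 p).2]
    · rw [if_neg hv]
      symm
      exact Finset.sum_eq_zero fun x _ => if_neg fun h => hv fun p => (h.1 p).1
  rw [Finset.sum_congr rfl fun v _ => h4 v,
    sum_arr (fun v x : Pr z y → Ve r => if (∀ p, Pool.Agent.L7h56.IK.Cd (α p) (β p) (v p, x p)) ∧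
      Spf τ (fun p => (v p, x p)) then OF (fun p => (v p, x p)) else 0)]

/-- the symbols -/
noncomputable def GF (τ : Bool) (μ : Pr z y → Mk r) : ℝ := if Spf τ μ then OF μ else 0

/-- the weight of a prime with the sign `h`, the class `o` and the marks `m` -/
noncomputable def tF (cls : J → Fin 3) (c : Fin 3) (A B : J → ℕ → ℝ) (a b : ℕ) (h : Bool) (p : ℕ)
    (o : Option J) (m : Mk r) : ℝ :=
  if (h = true → o.isSome = true) ∧ Pool.Agent.L7h56.IK.Cd (kc cls c o && !h) (oc cls c o) m then
    ((if (kc cls c o && !h) = true then (1 / 2 ^ a : ℝ) else 1) *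
      (if oc cls c o = true then (1 / 2 ^ b : ℝ) else 1)) *
      (o.elim 1 fun j => if h = true then B j p else A j p) else 0

/-- the weights with the marks -/
noncomputable def TF (cls : J → Fin 3) (c : Fin 3) (A B : J → ℕ → ℝ) (a b : ℕ) (p : ℕ)
    (o : Option J) (m : Mk r) : ℝ := ∑ h : Bool, tF cls c A B a b h p o m

lemma lhsF (cls : J → Fin 3) (c : Fin 3) (A B : J → ℕ → ℝ) (τ : Bool) (a b : ℕ)
    (ξ : Pr z y → Option J) :
    avE A B (fun E => FK τ a b r (mc cls (Dl ξ)) E c) (Dl ξ) =
      ∑ μ : Pr z y → Mk r, (∏ p : Pr z y, TF cls c A B a b p (ξ p) (μ p)) * GF τ μ := by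
  unfold avE
  rw [Q0_Dl, sum_pw]
  have h1 : ∀ η : Pr z y → Bool, (if ∀ p, η p = true → (ξ p).isSome = true then
      FK τ a b r (mc cls (Dl ξ)) (Ts η) c * WE A B (Dl ξ) (Ts η) else 0) =
      ∑ μ : Pr z y → Mk r, (∏ p : Pr z y, tF cls c A B a b (η p) p (ξ p) (μ p)) * GF τ μ := by
    intro η
    by_cases hη : ∀ p, η p = true → (ξ p).isSome = true
    · rw [if_pos hη, FK_eq τ a b (mc cls (Dl ξ)) (Ts η) c _ _ ?_ (Ms_Dl cls c ξ η) (Mo_Dl cls c ξ),
        WE_Dl, Finset.mul_sum, Finset.sum_mul]
      · refine Finset.sum_congr rfl fun μ _ => ?_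
        by_cases hC : ∀ p, Pool.Agent.L7h56.IK.Cd (kc cls c (ξ p) && !(η p)) (oc cls c (ξ p)) (μ p)
        · have e1 : ∀ p : Pr z y, tF cls c A B a b (η p) p (ξ p) (μ p) =
              ((if (kc cls c (ξ p) && !(η p)) = true then (1 / 2 ^ a : ℝ) else 1) *
              (if oc cls c (ξ p) = true then (1 / 2 ^ b : ℝ) else 1)) *
              ((ξ p).elim 1 fun j => if η p = true then B j p else A j p) := fun p =>
            if_pos ⟨hη p, hC p⟩
          rw [Finset.prod_congr rfl fun p _ => e1 p, Finset.prod_mul_distrib,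
            Finset.prod_mul_distrib]
          unfold GF
          by_cases hS : Spf τ μ
          · rw [if_pos ⟨hC, hS⟩, if_pos hS]
            ring
          · rw [if_neg fun h => hS h.2, if_neg hS]
            ring
        · rw [if_neg fun h => hC h.1, mul_zero, zero_mul]
          simp only [not_forall] at hC
          obtain ⟨p, hp⟩ := hC
          rw [Finset.prod_eq_zero (mem_univ p) (if_neg fun h => hp h.2), zero_mul]
      · intro p h2 h3
        rw [Bool.and_eq_true_iff] at h2
        have h4 := h2.1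
        unfold kc tm at h4
        unfold oc tm at h3
        cases hx : ξ p with
        | none =>
          rw [hx] at h3
          simp at h3
        | some j =>
          rw [hx] at h3 h4
          simp only [Option.elim, decide_eq_true_eq] at h3 h4
          exact h3 h4
    · rw [if_neg hη]
      symm
      refine Finset.sum_eq_zero fun μ _ => ?_
      simp only [not_forall] at hη
      obtain ⟨p, hp1, hp2⟩ := hη
      rw [Finset.prod_eq_zero (mem_univ p) (if_neg fun h => hp2 (h.1 hp1)), zero_mul]
  rw [Finset.sum_congr rfl fun η _ => h1 η, Finset.sum_comm]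
  refine Finset.sum_congr rfl fun μ _ => ?_
  rw [← Finset.sum_mul]
  congr 1
  unfold TF
  rw [Finset.prod_univ_sum, Fintype.piFinset_univ]

/-- the label and the marks -/
def fkF (cls : J → Fin 3) (c : Fin 3) (x : Option (LabF J r)) : Option J × Mk r :=
  (x.map fun i => i.1, x.elim (0, 0) fun i => if cls i.1 = c then (i.2.1, 0) else (0, i.2.1))

/-- the local weights -/
noncomputable def WF (cls : J → Fin 3) (c : Fin 3) (A B : J → ℕ → ℝ) (a b : ℕ) (p : ℕ)
    (x : Option (LabF J r)) : ℝ := x.elim 1 fun i => bF cls c A B a b r i p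

lemma fiberF (cls : J → Fin 3) (c : Fin 3) (A B : J → ℕ → ℝ) (a b : ℕ) (p : ℕ)
    (x : Option J × Mk r) :
    ∑ u ∈ univ.filter (fun u : Option (LabF J r) => fkF cls c u = x), WF cls c A B a b p u =
      TF cls c A B a b p x.1 x.2 := by
  obtain ⟨x, v, w⟩ := x
  rw [Finset.sum_filter, Fintype.sum_option]
  cases x with
  | none =>
    have h1 : ∑ i : LabF J r, (if fkF cls c (some i) = ((none : Option J), (v, w)) then
        WF cls c A B a b p (some i) else 0) = 0 := by
      refine Finset.sum_eq_zero fun i _ => if_neg ?_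
      simp [fkF]
    rw [h1, add_zero]
    have hk : kc cls c (none : Option J) = false := rfl
    have ho : oc cls c (none : Option J) = false := rfl
    simp only [fkF, Option.map_none, Option.elim, Prod.mk.injEq, true_and, WF, TF, tF,
      Fintype.sum_bool, hk, ho, Pool.Agent.L7h56.IK.Cd]
    by_cases hv : v = 0
    · by_cases hw : w = 0
      · simp [hv, hw]
      · have hw' : ¬ 0 = w := fun h => hw h.symm
        simp [hv, hw, hw']
    · have hv' : ¬ 0 = v := fun h => hv h.symm
      simp [hv, hv']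
  | some j =>
    have h0 : (if fkF cls c (none : Option (LabF J r)) = (some j, (v, w)) then
        WF cls c A B a b p (none : Option (LabF J r)) else 0) = 0 := by
      rw [if_neg]
      simp [fkF]
    rw [h0, zero_add]
    have h1 : ∀ F : LabF J r → ℝ, ∑ i : LabF J r, F i = ∑ j' : J, ∑ m : Ve r, ∑ h : Bool, F (j', m, h) := by
      intro F
      rw [Fintype.sum_prod_type]
      refine Finset.sum_congr rfl fun j' _ => ?_
      rw [Fintype.sum_prod_type]
    rw [h1, Finset.sum_eq_single j]
    · by_cases hj : cls j = c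
      · have hk : kc cls c (some j) = true := by simp [kc, tm, hj]
        have ho : oc cls c (some j) = false := by simp [oc, tm, hj]
        simp only [fkF, Option.map_some, Option.elim, if_pos hj, Prod.mk.injEq, true_and, WF, TF, tF,
          Fintype.sum_bool, hk, ho, Pool.Agent.L7h56.IK.Cd, bF]
        rw [Finset.sum_eq_single v]
        · by_cases hw : w = 0
          · by_cases hv : v = 0
            · simp [hv, hw]
              ring
            · simp [hv, hw]
              ring
          · have hw' : ¬ 0 = w := fun h => hw h.symm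
            simp [hw, hw']
        · intro m _ hm
          simp [hm]
        · intro h
          exact absurd (mem_univ _) h
      · have hk : kc cls c (some j) = false := by simp [kc, tm, hj]
        have ho : oc cls c (some j) = true := by simp [oc, tm, hj]
        simp only [fkF, Option.map_some, Option.elim, if_neg hj, Prod.mk.injEq, true_and, WF, TF, tF,
          Fintype.sum_bool, hk, ho, Pool.Agent.L7h56.IK.Cd, bF]
        rw [Finset.sum_eq_single w]
        · by_cases hv : v = 0
          · simp [hv]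
            ring
          · have hv' : ¬ 0 = v := fun h => hv h.symm
            simp [hv, hv']
        · intro m _ hm
          simp [hm]
        · intro h
          exact absurd (mem_univ _) h
    · intro j' _ hj
      refine Finset.sum_eq_zero fun m _ => Finset.sum_eq_zero fun h _ => if_neg fun h' => hj ?_
      simp only [fkF, Option.map_some, Option.elim, Prod.mk.injEq, Option.some.injEq] at h'
      exact h'.1
    · intro h
      exact absurd (mem_univ _) h

lemma Sym_eqF (cls : J → Fin 3) (c : Fin 3) (l : Pr z y → Option (LabF J r)) :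
    Pool.Agent.W262.RK.Sym (LF cls c r) (fun _ => 1) (Dl l) = OF fun p => (fkF cls c (l p)).2 := by
  rw [Sym_Dl]
  have h1 : ∏ p : Pr z y, ((l p).elim 1 fun _ => Jr 1 p) = (1 : ℝ) := by
    refine Finset.prod_eq_one fun p _ => ?_
    cases l p with
    | none => rfl
    | some i => exact Jr_one_left _
  rw [h1, mul_one]
  unfold OF
  refine Finset.prod_congr rfl fun p _ => ?_
  refine Finset.prod_congr rfl fun q _ => ?_
  beta_reduce
  cases hq : l q with
  | none =>
    have e : Pool.Agent.W762.RK2.lk (LF cls c r) (none : Option (LabF J r)) (l p) = false := rfl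
    rw [e]
    simp [fkF]
  | some i =>
    cases hp : l p with
    | none =>
      have e : Pool.Agent.W762.RK2.lk (LF cls c r) (some i) (none : Option (LabF J r)) = false := rfl
      rw [e]
      simp [fkF]
    | some k =>
      have e : Pool.Agent.W762.RK2.lk (LF cls c r) (some i) (some k) = LF cls c r i k := rfl
      rw [e]
      simp only [fkF, Option.elim, LF]
      by_cases hi : cls i.1 = c
      · by_cases hk : cls k.1 = c
        · simp [hi, hk]
        · have hqp : q ≠ p := by
            intro h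
            rw [h, hp] at hq
            rw [← Option.some.inj hq] at hi
            exact hk hi
          unfold SS
          rw [if_neg hqp]
          by_cases hd : i.2.1 ⬝ᵥ k.2.1 = 0
          · simp [hi, hk, hd]
          · simp [hi, hk, hd]
      · simp [hi]

lemma rhsF (cls : J → Fin 3) (c : Fin 3) (A B : J → ℕ → ℝ) (τ : Bool) (a b : ℕ)
    (l : Pr z y → Option (LabF J r)) :
    (if QF cls c τ r (univ.filter (fun i => Dl l i ≠ 1)) then
      (∏ i : LabF J r, gm (bF cls c A B a b r i) (Dl l i)) *
        Pool.Agent.W262.RK.Sym (LF cls c r) (fun _ => 1) (Dl l) else 0) =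
      (∏ p : Pr z y, WF cls c A B a b p (l p)) * GF τ fun p => (fkF cls c (l p)).2 := by
  have hn : ∀ i : LabF J r, Dl l i ≠ 1 ↔ ∃ p, l p = some i := by
    intro i
    unfold Dl
    rw [nb_ne_one]
    simp only [decide_eq_true_eq]
  have hm : ∀ i : LabF J r, i ∈ univ.filter (fun i => Dl l i ≠ 1) ↔ ∃ p, l p = some i := by
    intro i
    rw [mem_filter, ← hn]
    exact ⟨fun h => h.2, fun h => ⟨mem_univ _, h⟩⟩
  have hc : QF cls c τ r (univ.filter (fun i => Dl l i ≠ 1)) ↔
      Spf τ fun p => (fkF cls c (l p)).2 := by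
    unfold QF Spf
    refine forall_congr' fun w => imp_congr Iff.rfl ?_
    have key : ∀ i : LabF J r, ((cls i.1 = c ↔ τ = true) ∧ w ⬝ᵥ i.2.1 ≠ 0) ↔
        w ⬝ᵥ (if τ = true then (fkF cls c (some i)).2.1 else (fkF cls c (some i)).2.2) ≠ 0 := by
      intro i
      simp only [fkF, Option.elim]
      by_cases hi : cls i.1 = c
      · cases τ <;> simp [hi]
      · cases τ <;> simp [hi]
    constructor
    · rintro ⟨i, h1, h2⟩
      obtain ⟨p, hp⟩ := (hm i).1 h1
      refine ⟨p, ?_⟩
      beta_reduce
      rw [hp]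
      exact (key i).1 h2
    · rintro ⟨p, hp⟩
      beta_reduce at hp
      cases hx : l p with
      | none =>
        rw [hx] at hp
        simp [fkF] at hp
      | some i =>
        rw [hx] at hp
        exact ⟨i, (hm i).2 ⟨p, hx⟩, (key i).2 hp⟩
  rw [Pool.Agent.L7h19.RP.prod_gm (fun i : LabF J r => bF cls c A B a b r i) l, Sym_eqF]
  unfold GF
  by_cases h : Spf τ fun p => (fkF cls c (l p)).2
  · rw [if_pos (hc.2 h), if_pos h]
    rfl
  · rw [if_neg fun h' => h (hc.1 h'), if_neg h, mul_zero]

/-- **S_EXF** -/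
theorem s_EXF : S_EXF := by
  classical
  intro J _ _ cls c A B τ a b r z y _
  rw [sum_Tup fun s => avE A B (fun E => FK τ a b r (mc cls s) E c) s,
    Finset.sum_filter,
    sum_Tup fun d : LabF J r → ℕ =>
      if QF cls c τ r (univ.filter (fun i => d i ≠ 1)) then
        (∏ i : LabF J r, gm (bF cls c A B a b r i) (d i)) *
          Pool.Agent.W262.RK.Sym (LF cls c r) (fun _ => 1) d else 0]
  rw [Finset.sum_congr rfl fun ξ _ => lhsF cls c A B τ a b ξ,
    Finset.sum_congr rfl fun l _ => rhsF cls c A B τ a b l]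
  rw [← Finset.sum_fiberwise univ (fun (l : Pr z y → Option (LabF J r)) => fun p => fkF cls c (l p))]
  have h1 : ∀ ζ : Pr z y → Option J × Mk r,
      ∑ l ∈ univ.filter (fun l : Pr z y → Option (LabF J r) => (fun p => fkF cls c (l p)) = ζ),
        (∏ p : Pr z y, WF cls c A B a b p (l p)) * (GF τ fun p => (fkF cls c (l p)).2) =
      (∏ p : Pr z y, TF cls c A B a b p (ζ p).1 (ζ p).2) * GF τ fun p => (ζ p).2 := by
    intro ζ
    have h2 : (univ.filter fun l : Pr z y → Option (LabF J r) => (fun p => fkF cls c (l p)) = ζ) =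
        Fintype.piFinset (fun p => univ.filter (fun x : Option (LabF J r) => fkF cls c x = ζ p)) := by
      ext l
      simp only [Finset.mem_filter, Finset.mem_univ, true_and, Fintype.mem_piFinset, funext_iff]
    rw [Finset.prod_congr rfl fun (p : Pr z y) _ => (fiberF cls c A B a b p (ζ p)).symm,
      Finset.prod_univ_sum, Finset.sum_mul, h2]
    refine Finset.sum_congr rfl fun l hl => ?_
    rw [Fintype.mem_piFinset] at hl
    have h3 : ∀ p, fkF cls c (l p) = ζ p := fun p => (Finset.mem_filter.1 (hl p)).2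
    simp only [h3]
  rw [Finset.sum_congr rfl fun ζ _ => h1 ζ,
    sum_arr (fun (ξ : Pr z y → Option J) (μ : Pr z y → Mk r) =>
      (∏ p : Pr z y, TF cls c A B a b p (ξ p) (μ p)) * GF τ μ)]

end Pool.Agent.L7h60.FT
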